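import Mathlib
import Pool.Agent.Work.MP_327059_nt.Bd.B10

/-!
# Generic rank for arbitrary algebraic multipliers
-/

set_option autoImplicit false

namespace Pool.Agent.Work.MP_8da9ea_nt.TG

open Pool.Agent.Work.MP_327059_nt.GL

/-- A power of an exponential as a Laurent monomial. -/
theorem core_mon {n m : ℕ} (b : Fin m → ℂ) (l : Fin n → ℂ) (w : Fin n → ℚ) (c : Fin m → ℚ) (N : ℕ)
    (ξ : Fin n → Fin m → ℤ) (h : ∀ i j, (ξ i j : ℚ) = N * (w i * c j)) :
    Complex.exp ((∑ j, (c j : ℂ) * b j) * ∑ i, (w i : ℂ) * l i) ^ N =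
      mon (fun i (j : Fin m) => Complex.exp (b j * l i)) ξ := by
  rw [mon, ← Complex.exp_nat_mul]
  simp only [← Complex.exp_int_mul, ← Complex.exp_sum]
  congr 1
  rw [Finset.sum_mul_sum, Finset.sum_comm]
  simp only [Finset.mul_sum]
  refine Finset.sum_congr rfl fun i _ => Finset.sum_congr rfl fun j _ => ?_
  have h1 : ((ξ i j : ℤ) : ℂ) = (N : ℂ) * ((w i : ℂ) * (c j : ℂ)) := by
    have := congrArg (fun q : ℚ => (q : ℂ)) (h i j)
    push_cast at this
    exact this
  rw [h1]
  ring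

/-- For `m` algebraic numbers and many logarithms the generic rank of the forms is at least `m`. -/
theorem core (h1 : S_TI) (h2 : S_AxOut) (h3 : S_Cases) (h4 : S_LinAlg) (h5 : S_DenseK) (m : ℕ) :
    ∃ n₀ : ℕ, ∀ b : Fin m → ℂ, (∀ j, IsAlgebraic ℚ (b j)) → LinearIndependent ℚ b →
      ∀ n : ℕ, n₀ ≤ n → ∀ l : Fin n → ℂ, LinearIndependent ℚ l →
        (∀ i, IsAlgebraic ℚ (Complex.exp (l i))) →
          ∃ v : Fin n → ℂ, m ≤ rk l (fun i (j : Fin m) => Complex.exp (b j * l i)) v := by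
  classical
  choose M hM using h1
  refine ⟨m * m + (Finset.range (m + 1)).sup M, ?_⟩
  intro b hb hbind n hn l hl hexp
  set y : Fin n → Fin m → ℂ := fun i j => Complex.exp (b j * l i) with hy
  have hy0 : ∀ i j, y i j ≠ 0 := fun i j => Complex.exp_ne_zero _
  -- the generic point
  set S1 : Set ℂ := Set.range l ∪ Set.range (fun p : Fin n × Fin m => y p.1 p.2) with hS1
  have hS1c : S1.Countable := (Set.countable_range _).union (Set.countable_range _)
  obtain ⟨v, hv, -⟩ := h5 (Fin n) S1 hS1c (fun _ => 0) 1 one_pos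
  refine ⟨v, ?_⟩
  by_contra hne
  have hlt : rk l y v < m := not_le.1 hne
  obtain ⟨G, hG⟩ := h2 n m l y v hy0
  have hu : ug G v ≤ rk l y v := by
    have := hG 0 Fin.elim0 (fun t => t.elim0) (by
      rw [algebraicIndependent_empty_type_iff]
      exact (algebraMap (IntermediateField.adjoin ℚ (Set.range v)) ℂ).injective)
    omega
  set Y : Set ℂ := {z | ∃ ξ ∈ G, z = mon y ξ} with hY
  have hK : IntermediateField.adjoin ℚ (Set.range l ∪ Y) ≤ IntermediateField.adjoin ℚ S1 := by
    rw [IntermediateField.adjoin_le_iff]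
    rintro z (⟨i, rfl⟩ | ⟨ξ, -, rfl⟩)
    · exact IntermediateField.subset_adjoin ℚ _ (Or.inl ⟨i, rfl⟩)
    · refine prod_mem fun i _ => prod_mem fun j _ => zpow_mem ?_ _
      exact IntermediateField.subset_adjoin ℚ _ (Or.inr ⟨(i, j), rfl⟩)
  have hv1 : AlgebraicIndependent (IntermediateField.adjoin ℚ (Set.range l ∪ Y)) v :=
    gCore_mono hK v hv
  have hvQ : AlgebraicIndependent ℚ v :=
    hv.restrictScalars (K := IntermediateField.adjoin ℚ S1) (algebraMap ℚ _).injective
  have hcases := h3 n l Y v (rk l y v - ug G v) hv1 (by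
    intro k f hf hfi
    have := hG k f hf hfi
    omega)
  obtain ⟨Cs, Vs, hCs, hVs, hCV⟩ := h4 n m G v hvQ
  -- the numbers
  obtain ⟨k, hk⟩ : ∃ k, m = ug G v + k := ⟨m - ug G v, by omega⟩
  have hkC : k ≤ Module.finrank ℚ Cs := by omega
  obtain ⟨c, hc⟩ := exists_linearIndependent_of_le_finrank hkC
  have hc' : LinearIndependent ℚ (fun t => (c t : Fin m → ℚ)) :=
    hc.map' Cs.subtype (Submodule.ker_subtype _)
  obtain ⟨w, hw⟩ := exists_linearIndependent_of_le_finrank (le_refl (Module.finrank ℚ Vs))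
  have hw' : LinearIndependent ℚ (fun t => (w t : Fin n → ℚ)) :=
    hw.map' Vs.subtype (Submodule.ker_subtype _)
  set b' : Fin k → ℂ := fun t => ∑ j, ((c t : Fin m → ℚ) j : ℂ) * b j with hb'
  set l' : Fin (Module.finrank ℚ Vs) → ℂ := fun s => ∑ i, ((w s : Fin n → ℚ) i : ℂ) * l i with hl'
  have hb'ind : LinearIndependent ℚ b' := gCore_lind b hbind _ hc'
  have hl'ind : LinearIndependent ℚ l' := gCore_lind l hl _ hw'
  have hb'alg : ∀ j, IsAlgebraic ℚ (b' j) := by
    intro t
    change IsAlgebraic ℚ (∑ j, ((c t : Fin m → ℚ) j : ℂ) * b j)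
    refine gCore_sum _ _ fun j _ => ?_
    exact (isAlgebraic_algebraMap (R := ℚ) (A := ℂ) _).mul (hb j)
  have hl'alg : ∀ s, IsAlgebraic ℚ (Complex.exp (l' s)) := fun s => gCore_exp l hexp _
  have hn' : M k ≤ Module.finrank ℚ Vs := by
    have h6 : M k ≤ (Finset.range (m + 1)).sup M :=
      Finset.le_sup (Finset.mem_range.2 (by omega))
    omega
  obtain ⟨⟨s1, hs1⟩, ⟨s2, hs2⟩⟩ := hM k b' hb'alg hb'ind _ hn' l' hl'ind hl'alg
  -- algebraicity over `ℚ(Y)`
  have hYalg : ∀ s j, IsAlgebraic (IntermediateField.adjoin ℚ Y) (Complex.exp (b' j * l' s)) := by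
    intro s t
    obtain ⟨N, hN, ξ, hξ, hξe⟩ := hCV (c t) (c t).2 (w s) (w s).2
    apply IsAlgebraic.of_pow (Nat.pos_of_ne_zero hN)
    have h6 : Complex.exp (b' t * l' s) ^ N = mon y ξ := core_mon b l _ _ N ξ hξe
    rw [h6]
    exact isAlgebraic_algebraMap (R := IntermediateField.adjoin ℚ Y) (A := ℂ)
      ⟨mon y ξ, IntermediateField.subset_adjoin ℚ _ ⟨ξ, hξ, rfl⟩⟩
  rcases hcases with hA | hB
  · have := hA (k - 1) _ (fun t => hYalg _ _) hs2
    omega
  · have := hB k _ (fun t => ?_) hs1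
    · omega
    · cases h : s1 t with
      | inl s =>
        have h6 : cd b' l' (Sum.inl s) = l' s := rfl
        rw [h6]
        have h7 : l' s ∈ IntermediateField.adjoin ℚ (Set.range l ∪ Y) := by
          refine sum_mem fun i _ => mul_mem ?_ ?_
          · exact (IntermediateField.adjoin ℚ (Set.range l ∪ Y)).algebraMap_mem _
          · exact IntermediateField.subset_adjoin ℚ _ (Or.inl ⟨i, rfl⟩)
        exact isAlgebraic_algebraMap (R := IntermediateField.adjoin ℚ (Set.range l ∪ Y)) (A := ℂ)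
          ⟨_, h7⟩
      | inr p =>
        have h6 : cd b' l' (Sum.inr p) = Complex.exp (b' p.2 * l' p.1) := rfl
        rw [h6]
        have hle2 : IntermediateField.adjoin ℚ Y ≤ IntermediateField.adjoin ℚ (Set.range l ∪ Y) :=
          IntermediateField.adjoin.mono _ _ _ Set.subset_union_right
        let _ : Algebra (IntermediateField.adjoin ℚ Y)
          (IntermediateField.adjoin ℚ (Set.range l ∪ Y)) :=
          (IntermediateField.inclusion hle2).toRingHom.toAlgebra
        have _ : IsScalarTower (IntermediateField.adjoin ℚ Y)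
          (IntermediateField.adjoin ℚ (Set.range l ∪ Y)) ℂ :=
          IsScalarTower.of_algebraMap_eq fun x => rfl
        exact (hYalg p.1 p.2).tower_top _

end Pool.Agent.Work.MP_8da9ea_nt.TG
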