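import Mathlib
import Pool.Agent.Work.MP_8da9ea_nt.TG.Core
import Pool.Agent.Work.MP_327059_nt.Bd.B10

/-!
# Algebraic independence over a field of finite transcendence degree
-/

set_option autoImplicit false

namespace Pool.Agent.Work.MP_8da9ea_nt.TG

open Pool.Agent.Work.MP_327059_nt.GL Pool.Agent.ED

/-- jacobian criterion over a subfield -/
theorem rel_jac {σ : Type} [Fintype σ] [DecidableEq σ] (K : IntermediateField ℚ ℂ) (z : σ → ℂ)
    (δ : σ → Derivation ℚ ℂ ℂ) (hK : ∀ o, ∀ x ∈ K, δ o x = 0)
    (h : (Matrix.of fun o o' => δ o (z o')).det ≠ 0) : AlgebraicIndependent K z := by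
  obtain ⟨s, hs, hcard⟩ := exists_finset_rank (K := K) z
  have hli : LinearIndependent ℂ (fun o : σ => fun o' => δ o (z o')) := by
    have h1 : IsUnit (Matrix.of fun o o' => δ o (z o')) :=
      (Matrix.isUnit_iff_isUnit_det _).2 (isUnit_iff_ne_zero.2 h)
    exact Matrix.linearIndependent_rows_iff_isUnit.2 h1
  have hle : Fintype.card σ ≤ s.card := by
    rw [← hcard]
    have h2 : LinearIndependent ℂ (fun o : σ => (⟨fun o' => δ o (z o'),
        Submodule.subset_span ⟨derL K (δ o) (hK o), rfl⟩⟩ : Submodule.span ℂ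
        (Set.range fun X : Derivation K ℂ ℂ => fun i => X (z i)))) := by
      apply LinearIndependent.of_comp (Submodule.subtype _)
      exact hli
    exact h2.fintype_card_le_finrank
  have hsu : s = Finset.univ := by
    apply Finset.eq_univ_of_card
    exact le_antisymm (Finset.card_le_univ s) hle
  subst hsu
  exact hs.comp (fun o => (⟨o, Finset.mem_univ o⟩ : (Finset.univ : Finset σ)))
    (fun a b hab => congrArg Subtype.val hab)

/-- linear algebra -/
theorem lin_ker {T W Z : Type*} [AddCommGroup T] [Module ℂ T] [AddCommGroup W] [Module ℂ W]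
    [FiniteDimensional ℂ W] [AddCommGroup Z] [Module ℂ Z] [FiniteDimensional ℂ Z]
    (S : Submodule ℂ T) (f : T →ₗ[ℂ] W) (g : T →ₗ[ℂ] Z) (R : ℕ)
    (h : R + Module.finrank ℂ Z ≤ Module.finrank ℂ (S.map f)) :
    ∃ δ : Fin R → T, (∀ s, δ s ∈ S ∧ g (δ s) = 0) ∧ LinearIndependent ℂ (fun s => f (δ s)) := by
  classical
  let f' : S →ₗ[ℂ] S.map f := f.submoduleMap S
  have hsurj : Function.Surjective f' := f.submoduleMap_surjective S
  obtain ⟨sec, hsec⟩ := LinearMap.exists_rightInverse_of_surjective f' (LinearMap.range_eq_top.2 hsurj)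
  let g' : S.map f →ₗ[ℂ] Z := g ∘ₗ S.subtype ∘ₗ sec
  have h1 := LinearMap.finrank_range_add_finrank_ker g'
  have h2 : Module.finrank ℂ (LinearMap.range g') ≤ Module.finrank ℂ Z := Submodule.finrank_le _
  have h3 : R ≤ Module.finrank ℂ (LinearMap.ker g') := by omega
  obtain ⟨u, hu⟩ := exists_linearIndependent_of_le_finrank h3
  refine ⟨fun s => ((sec (u s : S.map f) : S) : T), fun s => ⟨(sec (u s : S.map f)).2, ?_⟩, ?_⟩
  · have := (u s).2
    exact LinearMap.mem_ker.1 this
  · have h4 : (fun s => f ((sec (u s : S.map f) : S) : T)) = fun s => ((u s : S.map f) : W) := by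
      funext s
      have h5 := congrArg (fun φ => φ (u s : S.map f)) hsec
      have h6 : f' (sec (u s : S.map f)) = (u s : S.map f) := h5
      have h7 := congrArg Subtype.val h6
      exact h7
    rw [h4]
    have h8 := hu.map' (LinearMap.ker g').subtype (Submodule.ker_subtype _)
    exact h8.map' (S.map f).subtype (Submodule.ker_subtype _)

/-- **Theorem H.** Let `k` be a field of transcendence degree at most `N`, `b_1, ..., b_m` linearly
independent algebraic numbers, `m ≥ r + N + 1`, and `l_1, ..., l_n` many linearly independent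
logarithms of algebraic numbers. For all rational `w`, `c` outside a hypersurface the `r` numbers
`exp (∑_j c_ij b_j ∑_k w_k l_k)` are algebraically independent over `k`. -/
theorem relH (h1 : S_TI) (h2 : S_AxOut) (h3 : S_Cases) (h4 : S_LinAlg) (h5 : S_DenseK) (r N m : ℕ)
    (hm : r + N + 1 ≤ m) :
    ∃ n₀ : ℕ, ∀ b : Fin m → ℂ, (∀ j, IsAlgebraic ℚ (b j)) → LinearIndependent ℚ b →
      ∀ n : ℕ, n₀ ≤ n → ∀ l : Fin n → ℂ, LinearIndependent ℚ l →
        (∀ i, IsAlgebraic ℚ (Complex.exp (l i))) →
        ∀ (K : IntermediateField ℚ ℂ) (κ : Fin N → ℂ),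
          (∀ x ∈ K, IsAlgebraic (IntermediateField.adjoin ℚ (Set.range κ)) x) →
          ∃ P : MvPolynomial (Fin n ⊕ (Fin r × Fin m)) ℂ, P ≠ 0 ∧
            ∀ (w : Fin n → ℚ) (c : Fin r → Fin m → ℚ),
              MvPolynomial.eval (Sum.elim (fun k => (w k : ℂ)) (fun q => (c q.1 q.2 : ℂ))) P ≠ 0 →
              AlgebraicIndependent K (fun i : Fin r =>
                Complex.exp ((∑ j, (c i j : ℂ) * b j) * ∑ k, (w k : ℂ) * l k)) := by
  classical
  obtain ⟨n₀, hn₀⟩ := core h1 h2 h3 h4 h5 m
  refine ⟨n₀, fun b hb hbi n hn l hl hlog K κ hκ => ?_⟩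
  obtain ⟨v, hv⟩ := hn₀ b hb hbi n hn l hl hlog
  set y : Fin n → Fin m → ℂ := fun i j => Complex.exp (b j * l i) with hy
  let g : Derivation ℚ ℂ ℂ →ₗ[ℂ] (Option (Fin N) → ℂ) :=
    { toFun := fun δ o => o.elim (om l y v δ none) (fun i => δ (κ i))
      map_add' := by
        intro a b
        funext o
        cases o with
        | none => simp
        | some i => simp
      map_smul' := by
        intro a b
        funext o
        cases o with
        | none => simp
        | some i => simp }
  obtain ⟨δ, hδ, hδi⟩ := lin_ker (TT v) (om l y v) g r (by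
    rw [Module.finrank_fintype_fun_eq_card, Fintype.card_option, Fintype.card_fin]
    exact le_trans (by omega) hv)
  have hδκ : ∀ s i, δ s (κ i) = 0 := fun s i => congrFun (hδ s).2 (some i)
  have hδ0 : ∀ s, om l y v (δ s) none = 0 := fun s => congrFun (hδ s).2 none
  have hδK : ∀ s, ∀ x ∈ K, δ s x = 0 := by
    intro s x hx
    refine der_zero_alg (IntermediateField.adjoin ℚ (Set.range κ)) (δ s) ?_ x (hκ x hx)
    refine der_zero_adjoin (Set.range κ) (δ s) ?_
    rintro _ ⟨i, rfl⟩
    exact hδκ s i
  -- the rows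
  let a : Fin r → Fin m → ℂ := fun s j => om l y v (δ s) (some j)
  have ha : LinearIndependent ℂ a := by
    rw [Fintype.linearIndependent_iff] at hδi ⊢
    intro q hq
    apply hδi q
    funext o
    cases o with
    | none =>
      simp only [Finset.sum_apply, Pi.smul_apply, hδ0, smul_zero, Finset.sum_const_zero,
        Pi.zero_apply]
    | some j =>
      have := congrFun hq j
      simpa [a] using this
  -- a right inverse
  obtain ⟨c0, hc0⟩ : ∃ c0 : Fin r → Fin m → ℂ, ∀ s i, ∑ j, c0 i j * a s j = if s = i then 1 else 0 := by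
    have hinj : LinearMap.ker (Fintype.linearCombination ℂ a) = ⊥ := by
      rw [LinearMap.ker_eq_bot]
      exact linearIndependent_iff_injective_fintypeLinearCombination.1 ha
    obtain ⟨G, hG⟩ := LinearMap.exists_leftInverse_of_injective _ hinj
    refine ⟨fun i j => G (Pi.single j 1) i, fun s i => ?_⟩
    have h6 : G (a s) = Pi.single s 1 := by
      have h7 := congrArg (fun φ => φ (Pi.single s (1 : ℂ))) hG
      simpa [Fintype.linearCombination_apply] using h7
    have h8 : a s = ∑ j, a s j • (Pi.single j (1 : ℂ) : Fin m → ℂ) := by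
      funext j
      simp [Finset.sum_apply, Pi.single_apply]
    have h9 : G (a s) i = ∑ j, G (Pi.single j 1) i * a s j := by
      conv_lhs => rw [h8]
      rw [map_sum, Finset.sum_apply]
      refine Finset.sum_congr rfl fun j _ => ?_
      rw [map_smul, Pi.smul_apply, smul_eq_mul, mul_comm]
    rw [← h9, h6, Pi.single_apply]
    simp only [eq_comm]
  let η : Fin n → Fin m → Fin r → ℂ := fun k j s =>
    δ s (Complex.exp (b j * l k)) / Complex.exp (b j * l k)
  let p : Fin r → Fin r → MvPolynomial (Fin n ⊕ (Fin r × Fin m)) ℂ := fun s i =>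
    ∑ j, MvPolynomial.X (Sum.inr (i, j)) *
      ∑ k, MvPolynomial.X (Sum.inl k) * MvPolynomial.C (η k j s)
  have hev : ∀ (w : Fin n → ℂ) (c : Fin r → Fin m → ℂ) (s i : Fin r),
      MvPolynomial.eval (Sum.elim w (fun q => c q.1 q.2)) (p s i) =
        ∑ j, c i j * ∑ k, w k * η k j s := by
    intro w c s i
    simp only [p, map_sum, map_mul, MvPolynomial.eval_X, MvPolynomial.eval_C, Sum.elim_inl,
      Sum.elim_inr]
  have hPev : ∀ (w : Fin n → ℂ) (c : Fin r → Fin m → ℂ),
      MvPolynomial.eval (Sum.elim w (fun q => c q.1 q.2)) (Matrix.of p).det =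
        (Matrix.of fun s i => ∑ j, c i j * ∑ k, w k * η k j s).det := by
    intro w c
    rw [RingHom.map_det]
    congr 1
    ext s i
    exact hev w c s i
  refine ⟨(Matrix.of p).det, ?_, ?_⟩
  · intro h0
    have h6 := hPev v c0
    rw [h0, map_zero] at h6
    have h7 : (Matrix.of fun s i => ∑ j, c0 i j * ∑ k, v k * η k j s) =
        (1 : Matrix (Fin r) (Fin r) ℂ) := by
      ext s i
      rw [Matrix.of_apply, Matrix.one_apply]
      exact hc0 s i
    rw [h7, Matrix.det_one] at h6
    exact zero_ne_one h6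
  · intro w c hw
    rw [hPev (fun k => (w k : ℂ)) (fun i j => (c i j : ℂ))] at hw
    let z : Fin r → ℂ := fun i =>
      Complex.exp ((∑ j, (c i j : ℂ) * b j) * ∑ k, (w k : ℂ) * l k)
    have hz : ∀ s i, δ s (z i) = (∑ j, (c i j : ℂ) * ∑ k, (w k : ℂ) * η k j s) * z i := by
      intro s i
      have hz0 : z i ≠ 0 := Complex.exp_ne_zero _
      have h6 := GP_dlog l (∑ j, (c i j : ℂ) * b j) w (δ s)
      have h7 : ∀ k, δ s (Complex.exp ((∑ j, (c i j : ℂ) * b j) * l k)) /
          Complex.exp ((∑ j, (c i j : ℂ) * b j) * l k) = ∑ j, (c i j : ℂ) * η k j s := by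
        intro k
        have h8 := GP_dlog b (l k) (c i) (δ s)
        rw [mul_comm (l k)] at h8
        rw [h8]
        refine Finset.sum_congr rfl fun j _ => ?_
        simp only [η]
        rw [mul_comm (l k)]
      simp only [h7] at h6
      have h9 : δ s (z i) / z i = ∑ j, (c i j : ℂ) * ∑ k, (w k : ℂ) * η k j s := by
        rw [h6]
        simp only [Finset.mul_sum]
        rw [Finset.sum_comm]
        refine Finset.sum_congr rfl fun j _ => Finset.sum_congr rfl fun k _ => by ring
      rw [← h9, div_mul_cancel₀ _ hz0]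
    have hdet : (Matrix.of fun s i => δ s (z i)).det ≠ 0 := by
      have h6 : (Matrix.of fun s i => δ s (z i)) =
          (Matrix.of fun s i => ∑ j, (c i j : ℂ) * ∑ k, (w k : ℂ) * η k j s) *
            Matrix.diagonal z := by
        ext s i
        rw [Matrix.mul_diagonal]
        exact hz s i
      rw [h6, Matrix.det_mul, Matrix.det_diagonal]
      exact mul_ne_zero hw (Finset.prod_ne_zero_iff.2 fun o _ => Complex.exp_ne_zero _)
    exact rel_jac K z δ hδK hdet

end Pool.Agent.Work.MP_8da9ea_nt.TG
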