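import Pool.Agent.Work.MP_8da9ea_nt.Bd.B05
import Pool.Agent.Work.MP_8da9ea_nt.Stmt5
import Pool.Agent.Work.MP_8da9ea_nt.S.Stmts
import Pool.Agent.Work.MP_8da9ea_nt.MovFinal
import Pool.Agent.Work.MP_8da9ea_nt.FixEnd

/-!
# Schanuel's inequality on a line and the elliptico-toric inequality
-/

set_option autoImplicit false

namespace Pool.Agent.Work.MP_8da9ea_nt.TG

open Pool.Agent.Work.MP_8da9ea_nt Submodule Pool.Agent.ED Pool.Agent.Work.MP_327059_nt.GL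
  Pool.Agent.Work.MP_8da9ea_nt.S

/-- the elements of `F` in the span of `t` are in `ℚ u₁ + ... + ℚ u_r + 2πiℚ` -/
def Inn (F : IntermediateField ℚ ℂ) {s r : ℕ} (t : Fin s → ℂ) (u : Fin r → ℂ) : Prop :=
  ∀ x ∈ Submodule.span ℚ (Set.range t), x ∈ F →
    x ∈ Submodule.span ℚ (Set.range u ∪ {2 * (Real.pi : ℂ) * Complex.I})

theorem span_form {r : ℕ} (u : Fin r → ℂ) (x : ℂ)
    (hx : x ∈ Submodule.span ℚ (Set.range u ∪ {2 * (Real.pi : ℂ) * Complex.I})) :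
    ∃ (a : Fin r → ℚ) (q : ℚ), x = (∑ i, (a i : ℂ) * u i) +
      (q : ℂ) * (2 * (Real.pi : ℂ) * Complex.I) := by
  rw [span_union, mem_sup] at hx
  obtain ⟨y, hy, y', hy', rfl⟩ := hx
  obtain ⟨a, ha⟩ := (Submodule.mem_span_range_iff_exists_fun ℚ).1 hy
  obtain ⟨q, hq⟩ := Submodule.mem_span_singleton.1 hy'
  refine ⟨a, q, ?_⟩
  rw [← ha, ← hq]
  simp only [Rat.smul_def]

/-- curves over the field of constants -/
theorem fix_part (F : IntermediateField ℚ ℂ) (hpi : 2 * (Real.pi : ℂ) * Complex.I ∈ F)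
    (hbig : ∀ ω₁ ∈ F, ∀ ω₂ ∈ F, ∀ (s n : ℕ) (t : Fin s → ℂ) (p : Fin n → ℂ),
        (∀ l, t l ∈ F) → (∀ i, p i ∈ F) → bigField ω₁ ω₂ t p ≤ F)
    {ω₁ ω₂ : ℂ} (him : (ω₂ / ω₁).im ≠ 0) {s n : ℕ} (t : Fin s → ℂ) (p : Fin n → ℂ)
    (hF : ∀ d, HasTrdeg (bigField ω₁ ω₂ t p ⊓ F) d →
          HasTrdeg (bigField ω₁ ω₂ t p) (d + (modDim F t + modDim2 F ω₁ ω₂ p) +
            min 1 (modDim F t + modDim2 F ω₁ ω₂ p)))
    {r : ℕ} (g : Fin r → ℂ) (h : AlgebraicIndependent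
      (IntermediateField.adjoin ℚ {2 * (Real.pi : ℂ) * Complex.I}) (fun i => Complex.exp (g i)))
    (ht : Inn F t g) (hp : kDim2 ω₁ ω₂ p ≤ modDim2 F ω₁ ω₂ p)
    (hpos : 0 < modDim F t + modDim2 F ω₁ ω₂ p) :
    HasTrdeg (bigField ω₁ ω₂ t p) (tDim t + 2 + kDim2 ω₁ ω₂ p) := by
  obtain ⟨m, A, hA, hle⟩ := exists_const_basis F hpi t
  set t' : Fin m → ℂ := fun i => ∑ l, (A i l : ℂ) * t l with ht'
  have hspan : ∀ i, t' i ∈ Submodule.span ℚ (Set.range t) := by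
    intro i
    refine sum_mem fun l _ => ?_
    have h1 : (A i l : ℂ) * t l = (A i l : ℚ) • t l := by
      rw [Rat.smul_def]
      push_cast
      rfl
    rw [h1]
    exact smul_mem _ _ (subset_span ⟨l, rfl⟩)
  have h1 := sch_comb g h t' (fun i => span_form g _ (ht _ (hspan i) (hA i)))
  have h2 : expField t' ≤ bigField ω₁ ω₂ t p ⊓ F := by
    unfold expField
    rw [IntermediateField.adjoin_le_iff]
    rintro x ((hx | ⟨i, rfl⟩) | ⟨i, rfl⟩)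
    · rw [Set.mem_singleton_iff] at hx
      rw [hx]
      exact ⟨big_pi' him t p, hpi⟩
    · exact ⟨sum_mem fun l _ => mul_mem (intCast_mem _ _) (big_t _ _ _ _ l), hA i⟩
    · refine ⟨?_, ?_⟩
      · show Complex.exp (∑ l, (A i l : ℂ) * t l) ∈ bigField ω₁ ω₂ t p
        rw [Complex.exp_sum]
        refine prod_mem fun l _ => ?_
        rw [Complex.exp_int_mul]
        exact zpow_mem (bigField_exp ω₁ ω₂ t p l) _
      · have h3 := hbig 0 (zero_mem F) 0 (zero_mem F) 1 0 (fun _ => t' i) ![] (fun _ => hA i)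
          (fun l => l.elim0)
        exact h3 (bigField_exp 0 0 (fun _ : Fin 1 => t' i) ![] 0)
  have h3 := hF (tDim t' + 1) (h1.mono h2 le_rfl)
  refine h3.mono le_rfl ?_
  have h4 : min 1 (modDim F t + modDim2 F ω₁ ω₂ p) = 1 := by omega
  rw [h4]
  omega

/-- **Theorem.** -/
theorem combo (hM : S_MainS) (S₀ : Set ℂ) (hS₀ : S₀.Countable) :
    ∃ F₁ F₂ : IntermediateField ℚ ℂ,
      ((F₁ : Set ℂ).Countable ∧ S₀ ⊆ F₁ ∧ (∀ x : ℂ, IsAlgebraic F₁ x → x ∈ F₁) ∧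
        ∀ ω₁ ω₂ : ℂ, (ω₂ / ω₁).im ≠ 0 → (jInv ω₁ ω₂ ∈ F₁ ↔ ω₂ / ω₁ ∈ F₁)) ∧
      ((F₂ : Set ℂ).Countable ∧ S₀ ⊆ F₂ ∧ (∀ x : ℂ, IsAlgebraic F₂ x → x ∈ F₂) ∧
        ∀ ω₁ ω₂ : ℂ, (ω₂ / ω₁).im ≠ 0 → (jInv ω₁ ω₂ ∈ F₂ ↔ ω₂ / ω₁ ∈ F₂)) ∧
      ∀ Q m κ : ℕ, ∃ n₀ : ℕ, ∀ b : Fin m → ℂ, FT Q b → LinearIndependent ℚ b → TrLe κ b →
        ∀ n : ℕ, n₀ ≤ n → ∀ x : Fin n → ℂ, LinearIndependent ℚ x →
        ∃ P : MvPolynomial (Fin n) ℂ, P ≠ 0 ∧ P.totalDegree ≤ m ∧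
        ∀ w : Fin n → ℚ, MvPolynomial.eval (fun i => (w i : ℂ)) P ≠ 0 →
        ∀ z : ℂ, z = ∑ i, (w i : ℂ) * x i →
          Sch b z ∧
          (∀ r N : ℕ, r + N + κ + 1 ≤ m → ∀ (ω₁ ω₂ : ℂ) (s k : ℕ) (t : Fin s → ℂ)
            (p : Fin k → ℂ), ¬ HasTrdeg (bigField ω₁ ω₂ t p) (N + 1) →
            ∃ P' : MvPolynomial (Fin r × Fin m) ℂ, P' ≠ 0 ∧ P'.IsHomogeneous r ∧
            ∀ c : Fin r → Fin m → ℚ, MvPolynomial.eval (fun q => (c q.1 q.2 : ℂ)) P' ≠ 0 →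
            ∀ u : Fin r → ℂ, (∀ i, u i = (∑ j, (c i j : ℂ) * b j) * z) →
              (∀ d, HasTrdeg (bigField ω₁ ω₂ t p) d →
                HasTrdeg (bigField ω₁ ω₂ (Fin.append t u) p) (d + r)) ∧
              (Q1 ω₁ ω₂ t p → Q1 ω₁ ω₂ (Fin.append t u) p)) ∧
          ((∀ j, IsAlgebraic ℚ (b j)) → ∀ ω₁ ω₂ : ℂ, (ω₂ / ω₁).im ≠ 0 → jInv ω₁ ω₂ ∉ F₁ →
            ∀ (s k : ℕ) (t : Fin s → ℂ) (p : Fin k → ℂ), Inn F₁ t (fun j => b j * z) →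
              Q1 ω₁ ω₂ t p) ∧
          (∀ r : ℕ, r + κ + 2 ≤ m →
            ∃ P' : MvPolynomial (Fin r × Fin m) ℂ, P' ≠ 0 ∧ P'.IsHomogeneous r ∧
            ∀ c : Fin r → Fin m → ℚ, MvPolynomial.eval (fun q => (c q.1 q.2 : ℂ)) P' ≠ 0 →
            ∀ u : Fin r → ℂ, (∀ i, u i = (∑ j, (c i j : ℂ) * b j) * z) →
            ∀ ω₁ ω₂ : ℂ, (ω₂ / ω₁).im ≠ 0 → ∀ (s k : ℕ) (t : Fin s → ℂ) (p : Fin k → ℂ),
              (jInv ω₁ ω₂ ∉ F₁ → Inn F₁ t u → Q1 ω₁ ω₂ t p) ∧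
              (IsCM ω₁ ω₂ → Inn F₂ t u → kDim2 ω₁ ω₂ p ≤ modDim2 F₂ ω₁ ω₂ p →
                0 < modDim F₂ t + modDim2 F₂ ω₁ ω₂ p → Q1 ω₁ ω₂ t p)) := by
  classical
  obtain ⟨F₁, hF1c, hF1S, hF1a, -, hF1j, hF1⟩ := mov_final S₀ hS₀
  have hS₁ : (S₀ ∪ {2 * (Real.pi : ℂ) * Complex.I}).Countable :=
    hS₀.union (Set.countable_singleton _)
  obtain ⟨F₂, hF2c, hF2S, hF2a, hF2b, hF2j, hF2⟩ := fix_final fx_prop _ hS₁
  have hpi : 2 * (Real.pi : ℂ) * Complex.I ∈ F₂ := hF2S (Or.inr rfl)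
  refine ⟨F₁, F₂, ⟨hF1c, hF1S, hF1a, hF1j⟩,
    ⟨hF2c, fun x hx => hF2S (Or.inl hx), hF2a, hF2j⟩, ?_⟩
  -- the curves with generic invariant
  have hgen : ∀ ω₁ ω₂ : ℂ, (ω₂ / ω₁).im ≠ 0 → jInv ω₁ ω₂ ∉ F₁ → ∀ (s k : ℕ) (t : Fin s → ℂ)
      (p : Fin k → ℂ), (∀ (m : ℕ) (t' : Fin m → ℂ), (∀ l, t' l ∈ F₁ ∧
        t' l ∈ Submodule.span ℚ (Set.range t)) → HasTrdeg (expField t') (tDim t')) →
      Q1 ω₁ ω₂ t p := by
    intro ω₁ ω₂ him hj s k t p h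
    obtain ⟨hCM, h1⟩ := hF1 ω₁ ω₂ him hj
    have h2 := (h1 s k t p).2.1 h
    unfold Q1
    rw [if_neg hCM]
    have h3 : kDim2 ω₁ ω₂ p = 2 * pDim ω₁ ω₂ p := by
      unfold kDim2 pDim
      rw [if_neg hCM]
    rw [h3]
    exact h2
  intro Q m κ
  obtain ⟨n₀, hn₀⟩ := hM Q m
  refine ⟨n₀, fun b hFT hb hκ n hn x hx => ?_⟩
  obtain ⟨P, hP, hPd, hPw⟩ := hn₀ b hFT hb n hn x hx
  refine ⟨P, hP, hPd, fun w hw z hz => ?_⟩
  have hSch : Sch b z := by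
    rw [hz]
    exact hPw w hw
  refine ⟨hSch, ?_, ?_, ?_⟩
  · intro r N hm ω₁ ω₂ s k t p hN
    obtain ⟨θ, hθ⟩ := exists_theta _ N hN
    obtain ⟨P', hP', hP'h, hP'c⟩ := rel_indep b z hSch κ hκ r N hm (bigField ω₁ ω₂ t p) θ hθ
    refine ⟨P', hP', hP'h, fun c hc u hu => ?_⟩
    have h1 : AlgebraicIndependent (bigField ω₁ ω₂ t p) (fun i => Complex.exp (u i)) := by
      have h2 := hP'c c hc
      simp only [← hu] at h2
      exact h2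
    refine ⟨fun d hd => bigField_add ω₁ ω₂ t p u h1 d hd, fun hQ => ?_⟩
    have h2 := bigField_add ω₁ ω₂ t p u h1 _ hQ
    refine h2.mono le_rfl ?_
    have h3 := tDim_append t u
    omega
  · intro halg ω₁ ω₂ him hj s k t p ht
    refine hgen ω₁ ω₂ him hj s k t p fun l t' ht' => ?_
    refine sch_expField b z hSch halg hb t' fun i => ?_
    obtain ⟨a, q, haq⟩ := span_form _ _ (ht _ (ht' i).2 (ht' i).1)
    refine ⟨a, q, ?_⟩
    rw [haq, Finset.sum_mul]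
    congr 1
    exact Finset.sum_congr rfl fun j _ => by ring
  · intro r hm
    obtain ⟨P', hP', hP'h, hP'c⟩ := rel_indep b z hSch κ hκ r 1 (by omega)
      (IntermediateField.adjoin ℚ {2 * (Real.pi : ℂ) * Complex.I})
      (fun _ => 2 * (Real.pi : ℂ) * Complex.I) (by
        intro y hy
        have h1 : Set.range (fun _ : Fin 1 => 2 * (Real.pi : ℂ) * Complex.I) =
            {2 * (Real.pi : ℂ) * Complex.I} := Set.range_const
        rw [h1]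
        exact isAlgebraic_algebraMap (⟨y, hy⟩ :
          IntermediateField.adjoin ℚ {2 * (Real.pi : ℂ) * Complex.I}))
    refine ⟨P', hP', hP'h, fun c hc u hu ω₁ ω₂ him s k t p => ?_⟩
    have h1 : AlgebraicIndependent (IntermediateField.adjoin ℚ {2 * (Real.pi : ℂ) * Complex.I})
        (fun i => Complex.exp (u i)) := by
      have h2 := hP'c c hc
      simp only [← hu] at h2
      exact h2
    refine ⟨fun hj ht => ?_, fun hCM ht hp hpos => ?_⟩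
    · refine hgen ω₁ ω₂ him hj s k t p fun l t' ht' => ?_
      exact (sch_comb u h1 t' fun i => span_form _ _ (ht _ (ht' i).2 (ht' i).1)).mono le_rfl
        (Nat.le_succ _)
    · have hjF : jInv ω₁ ω₂ ∈ F₂ := by
        rw [hF2j ω₁ ω₂ him]
        obtain ⟨A, B, C, hA, hABC⟩ := hCM
        apply hF2a
        obtain ⟨A', hA'⟩ : ∃ A' : F₂, A' = (A : F₂) := ⟨_, rfl⟩
        obtain ⟨B', hB'⟩ : ∃ B' : F₂, B' = (B : F₂) := ⟨_, rfl⟩
        obtain ⟨C', hC'⟩ : ∃ C' : F₂, C' = (C : F₂) := ⟨_, rfl⟩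
        refine ⟨Polynomial.C A' * Polynomial.X ^ 2 + Polynomial.C B' * Polynomial.X +
          Polynomial.C C', ?_, ?_⟩
        · intro h0
          have h2 := congrArg (fun q : Polynomial F₂ => q.coeff 2) h0
          simp at h2
          rw [hA'] at h2
          exact hA (by exact_mod_cast h2)
        · simp only [map_add, map_mul, map_pow, Polynomial.aeval_C, Polynomial.aeval_X]
          rw [hA', hB', hC', map_intCast, map_intCast, map_intCast]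
          exact hABC
      have h2 := fix_part F₂ hpi hF2b him t p (fun d hd => (hF2 ω₁ ω₂ him hjF s k t p).1 d hd) u h1
        ht hp hpos
      unfold Q1
      rw [if_pos hCM]
      exact h2

end Pool.Agent.Work.MP_8da9ea_nt.TG
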