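import Pool.Agent.Work.MP_8da9ea_nt.TG.Combo
import Pool.Agent.Work.MP_8da9ea_nt.S.Asm

/-!
# Schanuel's inequality on almost all lines, absolutely and relative to every elliptic curve
-/

set_option autoImplicit false

namespace Pool.Agent.Work.MP_8da9ea_nt.TG.AlmostAllLines

open Pool.Agent.Work.MP_8da9ea_nt Pool.Agent.Work.MP_8da9ea_nt.S
  Pool.Agent.Work.MP_327059_nt.GL

/-- Every tuple of algebraic numbers is of finite type with exponent `1`.

For all `Q`, `m`, `κ` there is `n₀` such that for all `ℚ`-linearly independent complex numbers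
`b_1, …, b_m` of finite type with exponent `Q` and of transcendence degree at most `κ`, and for all
`ℚ`-linearly independent complex numbers `x_1, …, x_n`, `n ≥ n₀`, there is a nonzero polynomial `P` of
degree at most `m` such that for every rational `w` with `P(w) ≠ 0` the number
`z = w_1 x_1 + … + w_n x_n` has the following properties.
* Schanuel's inequality holds for `(b_1 z, …, b_m z)`: `m` of the `2m` numbers `b_j z`, `e^{b_j z}` are
  algebraically independent over `ℚ`.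
* Let `r + N + κ + 1 ≤ m`, let `ω₁`, `ω₂`, `t`, `p` be arbitrary, and let the transcendence degree of the
  field `B(t, p)` of the problem be at most `N`. Then there is a nonzero form `P'` of degree `r` such
  that for every rational matrix `c` with `P'(c) ≠ 0` and `u_i = (∑_j c_ij b_j) z` the transcendence
  degree of `B((t, u), p)` is at least that of `B(t, p)` plus `r`, and the inequality of the problem for
  `(t, p)` implies that for `((t, u), p)`. -/
theorem result :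
    (∀ (m : ℕ) (b : Fin m → ℂ), (∀ j, IsAlgebraic ℚ (b j)) → FT 1 b ∧ TrLe 0 b) ∧
    ∀ Q m κ : ℕ, ∃ n₀ : ℕ, ∀ b : Fin m → ℂ, FT Q b → LinearIndependent ℚ b → TrLe κ b →
      ∀ n : ℕ, n₀ ≤ n → ∀ x : Fin n → ℂ, LinearIndependent ℚ x →
      ∃ P : MvPolynomial (Fin n) ℂ, P ≠ 0 ∧ P.totalDegree ≤ m ∧
      ∀ w : Fin n → ℚ, MvPolynomial.eval (fun i => (w i : ℂ)) P ≠ 0 →
      ∀ z : ℂ, z = ∑ i, (w i : ℂ) * x i →
        Sch b z ∧
        ∀ r N : ℕ, r + N + κ + 1 ≤ m → ∀ (ω₁ ω₂ : ℂ) (s k : ℕ) (t : Fin s → ℂ)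
          (p : Fin k → ℂ), ¬ HasTrdeg (bigField ω₁ ω₂ t p) (N + 1) →
          ∃ P' : MvPolynomial (Fin r × Fin m) ℂ, P' ≠ 0 ∧ P'.IsHomogeneous r ∧
          ∀ c : Fin r → Fin m → ℚ, MvPolynomial.eval (fun q => (c q.1 q.2 : ℂ)) P' ≠ 0 →
          ∀ u : Fin r → ℂ, (∀ i, u i = (∑ j, (c i j : ℂ) * b j) * z) →
            (∀ d, HasTrdeg (bigField ω₁ ω₂ t p) d →
              HasTrdeg (bigField ω₁ ω₂ (Fin.append t u) p) (d + r)) ∧
            (Q1 ω₁ ω₂ t p → Q1 ω₁ ω₂ (Fin.append t u) p) := by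
  refine ⟨fun m b hb => ⟨x_FTalg m b hb, ?_⟩, ?_⟩
  · intro s hs
    exact (hs.transcendental 0) (hb (s 0))
  · obtain ⟨F₁, F₂, -, -, h⟩ := TG.combo x_MainS ∅ Set.countable_empty
    intro Q m κ
    obtain ⟨n₀, hn₀⟩ := h Q m κ
    refine ⟨n₀, fun b h1 h2 h3 n hn x hx => ?_⟩
    obtain ⟨P, hP, hPd, hw⟩ := hn₀ b h1 h2 h3 n hn x hx
    exact ⟨P, hP, hPd, fun w hPw z hz => ⟨(hw w hPw z hz).1, (hw w hPw z hz).2.1⟩⟩

end Pool.Agent.Work.MP_8da9ea_nt.TG.AlmostAllLines
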