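import Pool.Agent.Work.MP_8da9ea_nt.TG.Combo
import Pool.Agent.Work.MP_8da9ea_nt.S.Asm

/-!
# The elliptico-toric inequality for generic and for CM curves and points `t` on almost all lines
-/

set_option autoImplicit false

namespace Pool.Agent.Work.MP_8da9ea_nt.TG.GenericCurveOnLines

open Pool.Agent.Work.MP_8da9ea_nt Pool.Agent.Work.MP_8da9ea_nt.S
  Pool.Agent.Work.MP_8da9ea_nt.TG Pool.Agent.Work.MP_327059_nt.GL

/-- For every countable set `S₀` of complex numbers there are countable algebraically closed subfields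
`F₁`, `F₂` of `ℂ` containing `S₀`, each of which contains the `j`-invariant of a lattice
`ℤ ω₁ + ℤ ω₂` if and only if it contains `ω₂ / ω₁`, such that for all `Q`, `m`, `κ` there is `n₀` such
that for all `ℚ`-linearly independent complex numbers `b_1, …, b_m` of finite type with exponent `Q` and
of transcendence degree at most `κ`, and for all `ℚ`-linearly independent complex numbers
`x_1, …, x_n`, `n ≥ n₀`, there is a nonzero polynomial `P` of degree at most `m` such that for every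
rational `w` with `P(w) ≠ 0` the number `z = w_1 x_1 + … + w_n x_n` has the following properties.
* If all `b_j` are algebraic, then the inequality of the problem holds for every lattice with
  `j`-invariant outside `F₁`, all `p`, and all `t` such that the elements of `F₁` in the span of `t`
  lie in `ℚ b_1 z + … + ℚ b_m z + 2πiℚ`.
* If `r + κ + 2 ≤ m`, then there is a nonzero form `P'` of degree `r` such that for every rational
  matrix `c` with `P'(c) ≠ 0` and `u_i = (∑_j c_ij b_j) z` the inequality of the problem holds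
  - for every lattice with `j`-invariant outside `F₁`, all `p`, and all `t` such that the elements of
    `F₁` in the span of `t` lie in `ℚ u_1 + … + ℚ u_r + 2πiℚ`;
  - for every lattice with complex multiplication and all `t`, `p` such that the elements of `F₂` in
    the span of `t` lie in `ℚ u_1 + … + ℚ u_r + 2πiℚ`, the dimension of `p` over `k` does not drop
    modulo `ω₁ F₂`, and not all of `t`, `p / ω₁` are in `F₂`. -/
theorem result (S₀ : Set ℂ) (hS₀ : S₀.Countable) :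
    ∃ F₁ F₂ : IntermediateField ℚ ℂ,
      ((F₁ : Set ℂ).Countable ∧ S₀ ⊆ F₁ ∧ (∀ x : ℂ, IsAlgebraic F₁ x → x ∈ F₁) ∧
        ∀ ω₁ ω₂ : ℂ, (ω₂ / ω₁).im ≠ 0 → (jInv ω₁ ω₂ ∈ F₁ ↔ ω₂ / ω₁ ∈ F₁)) ∧
      ((F₂ : Set ℂ).Countable ∧ S₀ ⊆ F₂ ∧ (∀ x : ℂ, IsAlgebraic F₂ x → x ∈ F₂) ∧
        ∀ ω₁ ω₂ : ℂ, (ω₂ / ω₁).im ≠ 0 → (jInv ω₁ ω₂ ∈ F₂ ↔ ω₂ / ω₁ ∈ F₂)) ∧
      ∀ Q m κ : ℕ, ∃ n₀ : ℕ, ∀ b : Fin m → ℂ, FT Q b → LinearIndependent ℚ b → TrLe κ b →
        ∀ n : ℕ, n₀ ≤ n → ∀ x : Fin n → ℂ, LinearIndependent ℚ x →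
        ∃ P : MvPolynomial (Fin n) ℂ, P ≠ 0 ∧ P.totalDegree ≤ m ∧
        ∀ w : Fin n → ℚ, MvPolynomial.eval (fun i => (w i : ℂ)) P ≠ 0 →
        ∀ z : ℂ, z = ∑ i, (w i : ℂ) * x i →
          ((∀ j, IsAlgebraic ℚ (b j)) → ∀ ω₁ ω₂ : ℂ, (ω₂ / ω₁).im ≠ 0 → jInv ω₁ ω₂ ∉ F₁ →
            ∀ (s k : ℕ) (t : Fin s → ℂ) (p : Fin k → ℂ), Inn F₁ t (fun j => b j * z) →
              Q1 ω₁ ω₂ t p) ∧
          (∀ r : ℕ, r + κ + 2 ≤ m →
            ∃ P' : MvPolynomial (Fin r × Fin m) ℂ, P' ≠ 0 ∧ P'.IsHomogeneous r ∧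
            ∀ c : Fin r → Fin m → ℚ, MvPolynomial.eval (fun q => (c q.1 q.2 : ℂ)) P' ≠ 0 →
            ∀ u : Fin r → ℂ, (∀ i, u i = (∑ j, (c i j : ℂ) * b j) * z) →
            ∀ ω₁ ω₂ : ℂ, (ω₂ / ω₁).im ≠ 0 → ∀ (s k : ℕ) (t : Fin s → ℂ) (p : Fin k → ℂ),
              (jInv ω₁ ω₂ ∉ F₁ → Inn F₁ t u → Q1 ω₁ ω₂ t p) ∧
              (IsCM ω₁ ω₂ → Inn F₂ t u → kDim2 ω₁ ω₂ p ≤ modDim2 F₂ ω₁ ω₂ p →
                0 < modDim F₂ t + modDim2 F₂ ω₁ ω₂ p → Q1 ω₁ ω₂ t p)) := by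
  obtain ⟨F₁, F₂, h1, h2, h⟩ := TG.combo x_MainS S₀ hS₀
  refine ⟨F₁, F₂, h1, h2, fun Q m κ => ?_⟩
  obtain ⟨n₀, hn₀⟩ := h Q m κ
  refine ⟨n₀, fun b h3 h4 h5 n hn x hx => ?_⟩
  obtain ⟨P, hP, hPd, hw⟩ := hn₀ b h3 h4 h5 n hn x hx
  exact ⟨P, hP, hPd, fun w hPw z hz => (hw w hPw z hz).2.2⟩

end Pool.Agent.Work.MP_8da9ea_nt.TG.GenericCurveOnLines
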